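import Pool.Agent.U536.CF.TU
import Pool.Agent.Results.MP_1f047c_nt.MultiplicativeValues

/-!
# Singular matrices of logarithms of integers with large common factors with the values of multiplicative functions

Let `F_1, ..., F_k` be positive multiplicative functions of at most polynomial growth such that `F_i p ≤ M p` for the
large primes `p`, with different values at different large primes; for example Euler's function or the sum of the
divisors. Let `b < 1` and `0 ≤ c < 2 b - 1`. Let `θ_1, ..., θ_r` be distinct algebraic numbers, `K` any number field of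
degree at most `d` and `V` any `K`-space of complex numbers of dimension at most `m` for which Q1 holds over `K` (for
instance of dimension at most `1`). For all tuples `m` in `[1, N]^k` but `N^k exp (-(log N)^c)`, for EVERY tuple `w` of
integers `w_i ≥ exp ((log N)^b)` such that `gcd(w_i, F_i(m_i)) ≥ w_j^ρ` for all `i`, `j`, for ALL choices `l` of the
logarithms of the numbers `w_i + θ_j` the `l` are `K`-linearly independent modulo `V` and Q1 holds over `K` for the space
`V + K l`; `ρ < 1` depends only on `k`, `θ`, `d`, `m`, and the bound `N ≥ N₀` does not depend on `K` and `V`. The tuples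
`w` include all tuples of large divisors `w_i` of the `F_i(m_i)` of comparable size and their multiples by small integers.

Proof. But for few exceptional `m_i ≤ N`, the number of `m_i` with `g ∣ F_i(m_i)` is at most `N τ_J(g) / g` up to a factor
`exp ((log N)^s)`, `J = (log N)^a`, `a < s < b`, for all `g`: write `m_i = k u` with `u` squarefree and composed of primes
larger than `N^(1/J)`, `k ≤ exp (4 (log N)^a)`. If `w` is an exceptional tuple with `w_i ≤ X`, then the `g_i = gcd(w_i,
F_i(m_i))` are divisors of the `w_i` of size `≥ (X/2)^ρ`; there are few such tuples of divisors, and the inequality `τ_J^q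
≤ τ_K` for `K ≥ J^q` with Hölder's inequality for tuples bounds the sum of `∏ τ_J(g_i) / g_i`. The file
`MultiplicativeValues` of the starting library treats the tuples `w = (F_i(m_i))` only, with `N^k / (log N)^U` exceptions.
-/

set_option autoImplicit false

namespace Pool.Agent.Results.MP_1f047c_nt.CommonFactors

open Module
open Pool.Agent.Results.MP_1f047c_nt.TuplesPowerSaving (Q1Holds Extends Exceptional)
open Pool.Agent.N733.TG (LM lm_totient lm_sigma)
open Pool.Agent.U536.CF (CommonT avoidT commonT_of_dvd exists_rho)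

/-- **Singular matrices of logarithms of integers with large common factors with the values of multiplicative functions.** Let
`θ_1, ..., θ_r` be distinct algebraic numbers, `K` any number field of degree at most `d` and `V` any `K`-space of complex
numbers of dimension at most `m` for which Q1 holds over `K` (for instance of dimension at most `1`). Let the `F_i` be
multiplicative and positive, of at most polynomial growth, with `F_i p ≤ M p` at the large primes, and injective there.
Let `b < 1` and `0 ≤ c < 2 b - 1`. For all large `N`, for all tuples `m` in `[1, N]^k` but `N^k exp (-(log N)^c)`, for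
EVERY tuple `w` of integers `w_i ≥ exp ((log N)^b)` with `gcd(w_i, F_i(m_i)) ≥ w_j^ρ` for all `i`, `j`, for ALL choices
`l` of the logarithms of the numbers `w_i + θ_j` the `l` are `K`-linearly independent modulo `V` and Q1 holds over `K` for
the space `V + K l`; `ρ < 1` depends only on `k`, `θ`, `d`, `m`, and the bound `N ≥ N₀` does not depend on `K` and `V`.
Tuples of divisors `w_i ≥ exp ((log N)^b)` of the `F_i(m_i)` with `w_j^ρ ≤ w_i` for all `i`, `j` are such tuples. Euler's
function and the sum of the divisors are examples of the `F_i`. -/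
theorem result :
    (∀ {r : ℕ} (θ : Fin r → ℂ), (∀ j, IsAlgebraic ℚ (θ j)) → Function.Injective θ → ∀ k : ℕ, 1 ≤ k → ∀ d m : ℕ,
      ∃ ρ : ℝ, 0 < ρ ∧ ρ < 1 ∧ ∀ F : Fin k → ℕ → ℕ, (∀ i, LM (F i)) → ∀ b c : ℝ, b < 1 → 0 ≤ c → c < 2 * b - 1 →
      ∃ N₀ : ℕ, ∀ N : ℕ, N₀ ≤ N → ∀ K : IntermediateField ℚ ℂ, FiniteDimensional ℚ K → finrank ℚ K ≤ d →
      ∀ V : Submodule K ℂ, Module.Finite K V → finrank K V ≤ m → (finrank K V ≤ 1 ∨ Q1Holds V) →
      ({n : Fin k → ℕ | (∀ i, 1 ≤ n i ∧ n i ≤ N) ∧ ¬ ∀ w : Fin k → ℕ, CommonT F b ρ N n w →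
        ∀ l : Fin k × Fin r → ℂ, (∀ p, Complex.exp (l p) = w p.1 + θ p.2) → Extends V l}.ncard : ℝ) ≤
        (N : ℝ) ^ k * Real.exp (-(Real.log N ^ c))) ∧
    (LM Nat.totient ∧ LM (fun m => ∑ d ∈ m.divisors, d)) ∧
    ∀ (k : ℕ) (F : Fin k → ℕ → ℕ) (b ρ : ℝ) (N : ℕ) (m w : Fin k → ℕ), (∀ i, Real.exp (Real.log N ^ b) ≤ (w i : ℝ)) →
      (∀ i, w i ∣ F i (m i)) → (∀ i j, (w j : ℝ) ^ ρ ≤ (w i : ℝ)) → CommonT F b ρ N m w := by
  refine ⟨?_, ⟨lm_totient, lm_sigma⟩, fun k F b ρ N m w h1 h2 h3 => commonT_of_dvd h1 h2 h3⟩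
  intro r θ hθ hinj k hk d m
  obtain ⟨c₀, hc₀, C, h⟩ := Pool.Agent.Results.MP_1f047c_nt.TuplesPowerSaving.result θ hθ hinj k d m
  obtain ⟨ρ, hρ0, hρ1, hρ⟩ := exists_rho hk hc₀
  refine ⟨ρ, hρ0, hρ1, fun F hF b c hb hc hcb => ?_⟩
  obtain ⟨N₀, hN₀⟩ := avoidT hk hF hρ0 hρ1.le hρ C hb hc hcb
  refine ⟨N₀, fun N hN K hK hKd V hV hVm hV0 => ?_⟩
  refine le_trans (le_of_eq ?_) (hN₀ N hN {n | ∃ l : Fin k × Fin r → ℂ, (∀ p, Complex.exp (l p) = n p.1 + θ p.2) ∧
    ¬ Extends V l} (fun X hX => (h K hK hKd V hV hVm hV0 X hX).2))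
  congr 2
  ext n
  simp only [Set.mem_ofPred_eq]
  push Not
  refine and_congr Iff.rfl ⟨?_, ?_⟩
  · rintro ⟨w, h1, l, h2, h3⟩
    exact ⟨w, ⟨l, h2, h3⟩, h1⟩
  · rintro ⟨w, ⟨l, h2, h3⟩, h1⟩
    exact ⟨w, h1, l, h2, h3⟩

end Pool.Agent.Results.MP_1f047c_nt.CommonFactors
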