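import Pool.Agent.U979.CJ.Core
import Pool.Agent.U979.RG.Cplx

set_option autoImplicit false

/-!
# Singular `2 × 2` matrices of logarithms and complex conjugation

Let `M` be a counterexample to Q1 for `n = 2`, i.e. to the four exponentials conjecture: a singular
matrix of logarithms of algebraic numbers with `w M v ≠ 0` for all nonzero rational vectors `w`, `v`.
So `M = λ (1, t; s, s t)` with the slopes `t`, `s`.

1. If `t` or `s` lies on a circle or line which is defined over the field of algebraic numbers, then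
   `t` AND `s` lie on circles or lines defined over `ℚ`; and rational row and column operations make
   all entries of `M` real or purely imaginary, or give `M` the form `(l, D m̄; m, l̄)` with a positive
   rational number `D`, so that `D = |l / m| ^ 2`.
2. If `t` and the complex conjugate of `s` are related by a Möbius transformation with algebraic
   coefficients, it has rational coefficients, and rational row operations make `M` Hermitian or
   skew-Hermitian.
3. So the four exponentials conjecture is true for `x_0, x_1; y_0, y_1` if `x_1 / x_0` lies on an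
   algebraic circle or line, and not both `x_1 / x_0` and `y_1 / y_0` lie on rational ones; and if
   `x_1 / x_0` is an irrational algebraic Möbius transform of the conjugate of `y_1 / y_0`.
4. Examples: let `a` be real, algebraic and irrational.  Then one of `e^{y_0}, e^{y_1},
   e^{(a + i τ) y_0}, e^{(a + i τ) y_1}` is transcendental, for all real `τ` and all linearly
   independent complex numbers `y_0, y_1`.  Let `β` be algebraic and irrational.  Then one of
   `e^y, e^{t y}, e^{β t̄ y}, e^{β |t|^2 y}` is transcendental, for all irrational complex numbers `t`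
   and all `y ≠ 0`.

Proof.  The conjugate matrix `M̄` (the conjugate transpose in 2.) is also a counterexample.  If its slope
is a Möbius transform of `t` with algebraic coefficients then `M̄ = A M B` with RATIONAL matrices `A`, `B`,
and the Möbius transformation is rational: this is the rigidity theorem (`RG.rigid`; the proof uses the
strong six exponentials theorem of D. Roy and Baker's theorem).  Conjugation gives
`M = A ^ 2 M B ^ 2`, and since `t` and `s` are transcendental `A ^ 2` and `B ^ 2` are scalar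
(`CJ.fix_scalar`).  The normal forms follow (`CJ.normal_form`, `CJ.herm_form`).
-/

namespace Pool.Agent.Results.MP_1f047c_nt.ComplexConjugation

open Pool.Agent.U979.RG Pool.Agent.U979.CJ Pool.Agent.U979.GX ComplexConjugate

/-- `M` is a counterexample to Q1 for `n = 2`. -/
def IsCounterexample (M : Matrix (Fin 2) (Fin 2) ℂ) : Prop :=
  (∀ i j, IsAlgebraic ℚ (Complex.exp (M i j))) ∧ M.det = 0 ∧
    ∀ w v : Fin 2 → ℚ, w ≠ 0 → v ≠ 0 → ∑ i, ∑ j, (w i : ℂ) * M i j * v j ≠ 0

/-- the quotient of the columns of a singular matrix -/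
noncomputable def colSlope (M : Matrix (Fin 2) (Fin 2) ℂ) : ℂ := M 0 1 / M 0 0

/-- the quotient of the rows of a singular matrix -/
noncomputable def rowSlope (M : Matrix (Fin 2) (Fin 2) ℂ) : ℂ := M 1 0 / M 0 0

/-- `1, z, w, z w` are linearly dependent over the field of the algebraic numbers. -/
def AlgRelated (z w : ℂ) : Prop :=
  ∃ α β γ δ : ℂ, IsAlgebraic ℚ α ∧ IsAlgebraic ℚ β ∧ IsAlgebraic ℚ γ ∧ IsAlgebraic ℚ δ ∧
    ¬ (α = 0 ∧ β = 0 ∧ γ = 0 ∧ δ = 0) ∧ α + β * z + γ * w + δ * z * w = 0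

/-- `1, z, w, z w` are linearly dependent over the rational numbers. -/
def RatRelated (z w : ℂ) : Prop :=
  ∃ α β γ δ : ℚ, ¬ (α = 0 ∧ β = 0 ∧ γ = 0 ∧ δ = 0) ∧ (α : ℂ) + β * z + γ * w + δ * z * w = 0

/-- `N = P M Q` with invertible rational matrices `P`, `Q`. -/
def Equivalent (M N : Matrix (Fin 2) (Fin 2) ℂ) : Prop :=
  ∃ P Q : Matrix (Fin 2) (Fin 2) ℚ, P.det ≠ 0 ∧ Q.det ≠ 0 ∧
    N = P.map (fun q => (q : ℂ)) * M * Q.map fun q => (q : ℂ)

instance : IsAlgClosed (algebraicClosure ℚ ℂ) := (algebraicClosure.isAlgClosure ℚ ℂ).isAlgClosed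

theorem ctr_of {M : Matrix (Fin 2) (Fin 2) ℂ} (h : IsCounterexample M) : Ctr logA M where
  mem := h.1
  rows a b hab := by
    by_contra hne
    refine h.2.2 ![a, b] ![1, 1] (fun h0 => hne ⟨congrFun h0 0, congrFun h0 1⟩)
      (fun h0 => one_ne_zero (congrFun h0 0)) ?_
    simp only [Fin.sum_univ_two, Matrix.cons_val_zero, Matrix.cons_val_one]
    push_cast
    linear_combination hab 0 + hab 1
  cols a b hab := by
    by_contra hne
    refine h.2.2 ![1, 1] ![a, b] (fun h0 => one_ne_zero (congrFun h0 0))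
      (fun h0 => hne ⟨congrFun h0 0, congrFun h0 1⟩) ?_
    simp only [Fin.sum_univ_two, Matrix.cons_val_zero, Matrix.cons_val_one]
    push_cast
    linear_combination hab 0 + hab 1
  det := by
    have h1 := h.2.1
    rw [Matrix.det_fin_two] at h1
    linear_combination h1

/-- complex conjugation -/
noncomputable def cj : ℂ →+* ℂ := starRingEnd ℂ

theorem cj_apply (z : ℂ) : cj z = conj z := rfl

theorem cj_cj (z : ℂ) : cj (cj z) = z := Complex.conj_conj z

theorem cj_rat (q : ℚ) : cj (q : ℂ) = q := map_ratCast cj q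

theorem isAlgebraic_cj {z : ℂ} (h : IsAlgebraic ℚ z) : IsAlgebraic ℚ (cj z) := by
  have h1 := h.algHom (Complex.conjAe.toAlgHom.restrictScalars ℚ)
  exact h1

theorem mem_cj {z : ℂ} (h : z ∈ logA) : cj z ∈ logA := by
  rw [mem_logA] at h ⊢
  rw [cj_apply, Complex.exp_conj]
  exact isAlgebraic_cj h

theorem ctr_map {M : Matrix (Fin 2) (Fin 2) ℂ} (h : Ctr logA M) : Ctr logA (M.map cj) where
  mem i j := mem_cj (h.mem i j)
  rows a b hab := h.rows a b fun j => by
    have h1 := congrArg cj (hab j)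
    simpa [cj_cj, cj_rat] using h1
  cols a b hab := h.cols a b fun i => by
    have h1 := congrArg cj (hab i)
    simpa [cj_cj, cj_rat] using h1
  det := by
    have h1 := congrArg cj h.det
    simpa using h1

/-- the slopes of `M` and `σ M = A M B` -/
theorem slopes {M : Matrix (Fin 2) (Fin 2) ℂ} (hM : Ctr logA M)
    {A B : Matrix (Fin 2) (Fin 2) ℚ} (hA : A.det ≠ 0) (hB : B.det ≠ 0)
    (h : M.map cj = toK ℂ A * M * toK ℂ B) :
    RatRelated (colSlope M) (conj (colSlope M)) ∧ RatRelated (rowSlope M) (conj (rowSlope M)) := by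
  obtain ⟨e1, e2, e3⟩ := hM.exists
  have hx0 := hM.zero
  have hcx0 : cj (M 0 0) ≠ 0 := by
    intro h0
    exact hx0 (by rw [← cj_cj (M 0 0), h0, map_zero])
  have hρ : colSlope M = M 0 1 / M 0 0 := rfl
  have hσ : rowSlope M = M 1 0 / M 0 0 := rfl
  have hρ1 : cj (M 0 1) = cj (colSlope M) * cj (M 0 0) := by rw [← map_mul, hρ, ← e1]
  have hσ1 : cj (M 1 0) = cj (rowSlope M) * cj (M 0 0) := by rw [← map_mul, hσ, ← e2]
  rw [← hρ, ← hσ] at e3
  rw [← hρ] at e1
  rw [← hσ] at e2
  set ρ := colSlope M with hρd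
  set σ := rowSlope M with hσd
  clear_value ρ σ
  have hent : ∀ i j, cj (M i j) = M 0 0 * (A i 0 + A i 1 * σ) * (B 0 j + B 1 j * ρ) := by
    intro i j
    have h1 := congrFun (congrFun h i) j
    simp only [toK, Matrix.mul_apply, Fin.sum_univ_two, Matrix.map_apply] at h1
    rw [h1, e1, e2, e3]
    ring
  have h00 := hent 0 0
  have h01 := hent 0 1
  have h10 := hent 1 0
  rw [hρ1] at h01
  rw [hσ1] at h10
  have hg : ((B 0 0 : ℂ) + B 1 0 * ρ) ≠ 0 := by
    intro h0
    rw [h0, mul_zero] at h00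
    exact hcx0 h00
  have hf : ((A 0 0 : ℂ) + A 0 1 * σ) ≠ 0 := by
    intro h0
    rw [h0, mul_zero, zero_mul] at h00
    exact hcx0 h00
  constructor
  · refine ⟨-B 0 1, -B 1 1, B 0 0, B 1 0, ?_, ?_⟩
    · rintro ⟨h1, h2, h3, h4⟩
      apply hB
      rw [Matrix.det_fin_two, h3, h4]
      ring
    · have h1 : cj (M 0 0) * (((-B 0 1 : ℚ) : ℂ) + (-B 1 1 : ℚ) * ρ + (B 0 0 : ℚ) * conj ρ +
          (B 1 0 : ℚ) * ρ * conj ρ) = 0 := by
        have h2 : M 0 0 * (A 0 0 + A 0 1 * σ) * (cj (M 0 0) * (((-B 0 1 : ℚ) : ℂ) +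
            (-B 1 1 : ℚ) * ρ + (B 0 0 : ℚ) * conj ρ + (B 1 0 : ℚ) * ρ * conj ρ)) = 0 := by
          push_cast
          rw [← cj_apply]
          linear_combination cj (M 0 0) * h01 - (cj ρ * cj (M 0 0)) * h00
        exact (mul_eq_zero.mp h2).resolve_left (mul_ne_zero hx0 hf)
      exact (mul_eq_zero.mp h1).resolve_left hcx0
  · refine ⟨-A 1 0, -A 1 1, A 0 0, A 0 1, ?_, ?_⟩
    · rintro ⟨h1, h2, h3, h4⟩
      apply hA
      rw [Matrix.det_fin_two, h3, h4]
      ring
    · have h1 : cj (M 0 0) * (((-A 1 0 : ℚ) : ℂ) + (-A 1 1 : ℚ) * σ + (A 0 0 : ℚ) * conj σ +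
          (A 0 1 : ℚ) * σ * conj σ) = 0 := by
        have h2 : M 0 0 * (B 0 0 + B 1 0 * ρ) * (cj (M 0 0) * (((-A 1 0 : ℚ) : ℂ) +
            (-A 1 1 : ℚ) * σ + (A 0 0 : ℚ) * conj σ + (A 0 1 : ℚ) * σ * conj σ)) = 0 := by
          push_cast
          rw [← cj_apply]
          linear_combination cj (M 0 0) * h10 - (cj σ * cj (M 0 0)) * h00
        exact (mul_eq_zero.mp h2).resolve_left (mul_ne_zero hx0 hg)
      exact (mul_eq_zero.mp h1).resolve_left hcx0

/-- an equivalent matrix is not zero -/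
theorem ne_zero_of {M : Matrix (Fin 2) (Fin 2) ℂ} (hM : Ctr logA M)
    {P Q : Matrix (Fin 2) (Fin 2) ℚ} (hP : P.det ≠ 0) (hQ : Q.det ≠ 0) :
    toK ℂ P * M * toK ℂ Q ≠ 0 := by
  intro h0
  have h1 : toK ℂ P⁻¹ * (toK ℂ P * M * toK ℂ Q) * toK ℂ Q⁻¹ = M := by
    have h2 : toK ℂ P⁻¹ * toK ℂ P = 1 := by
      rw [← toK_mul, Matrix.nonsing_inv_mul P (isUnit_iff_ne_zero.mpr hP), toK_one]
    have h3 : toK ℂ Q * toK ℂ Q⁻¹ = 1 := by
      rw [← toK_mul, Matrix.mul_nonsing_inv Q (isUnit_iff_ne_zero.mpr hQ), toK_one]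
    calc toK ℂ P⁻¹ * (toK ℂ P * M * toK ℂ Q) * toK ℂ Q⁻¹
        = (toK ℂ P⁻¹ * toK ℂ P) * M * (toK ℂ Q * toK ℂ Q⁻¹) := by
          simp only [Matrix.mul_assoc]
      _ = M := by rw [h2, h3, Matrix.one_mul, Matrix.mul_one]
  rw [h0, Matrix.mul_zero, Matrix.zero_mul] at h1
  exact hM.zero (by rw [← h1]; rfl)

/-- the normal form in the complex case -/
theorem nform {M : Matrix (Fin 2) (Fin 2) ℂ} (hM : Ctr logA M)
    {A B : Matrix (Fin 2) (Fin 2) ℚ} (h : M.map cj = toK ℂ A * M * toK ℂ B) :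
    ∃ N : Matrix (Fin 2) (Fin 2) ℂ, Equivalent M N ∧
      ((∀ i j, (N i j).im = 0 ∨ (N i j).re = 0) ∨
        ∃ D : ℚ, 0 < D ∧ N 1 1 = conj (N 0 0) ∧ N 0 1 = D * conj (N 1 0)) := by
  obtain ⟨P, Q, hP, hQ, h1 | ⟨D, hD, h2, h3⟩⟩ := normal_form sys_complex hM cj cj_cj A B h
  · refine ⟨_, ⟨P, Q, hP, hQ, rfl⟩, Or.inl fun i j => ?_⟩
    rcases h1 i j with h2 | h2
    · exact Or.inl (Complex.conj_eq_iff_im.mp h2)
    · right
      have h3 := congrArg Complex.re h2
      rw [cj_apply, Complex.conj_re, Complex.neg_re] at h3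
      change ((toK ℂ P * M * toK ℂ Q) i j).re = 0
      linarith
  · refine ⟨_, ⟨P, Q, hP, hQ, rfl⟩, Or.inr ⟨D, ?_, h2, h3⟩⟩
    have hne := ne_zero_of hM hP hQ
    have hdet : (toK ℂ P * M * toK ℂ Q) 0 0 * (toK ℂ P * M * toK ℂ Q) 1 1 =
        (toK ℂ P * M * toK ℂ Q) 0 1 * (toK ℂ P * M * toK ℂ Q) 1 0 := by
      have h4 : (toK ℂ P * M * toK ℂ Q).det = 0 := by
        rw [Matrix.det_mul, Matrix.det_mul, Matrix.det_fin_two M]
        have := hM.det
        rw [this]
        ring
      rw [Matrix.det_fin_two] at h4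
      linear_combination h4
    set N := toK ℂ P * M * toK ℂ Q with hN
    clear_value N
    rw [h2, h3] at hdet
    have h5 : (Complex.normSq (N 0 0) : ℂ) = D * Complex.normSq (N 1 0) := by
      rw [Complex.normSq_eq_conj_mul_self, Complex.normSq_eq_conj_mul_self]
      rw [cj_apply, cj_apply] at hdet
      linear_combination hdet
    have h6 : Complex.normSq (N 0 0) = (D : ℝ) * Complex.normSq (N 1 0) := by exact_mod_cast h5
    have h7 : N 1 0 ≠ 0 := by
      intro h0
      rw [h0, Complex.normSq_zero, mul_zero, Complex.normSq_eq_zero] at h6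
      apply hne
      ext i j
      fin_cases i <;> fin_cases j
      · exact h6
      · show N 0 1 = 0
        rw [h3, h0, map_zero, mul_zero]
      · exact h0
      · show N 1 1 = 0
        rw [h2, h6, map_zero]
    have h8 : 0 < Complex.normSq (N 1 0) := Complex.normSq_pos.mpr h7
    have h9 : 0 ≤ (D : ℝ) := by
      by_contra hcon
      push Not at hcon
      have := mul_neg_of_neg_of_pos hcon h8
      have h10 := Complex.normSq_nonneg (N 0 0)
      linarith
    have h10 : 0 ≤ D := by exact_mod_cast h9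
    exact lt_of_le_of_ne h10 (Ne.symm hD)

theorem equivalent_transpose {M N : Matrix (Fin 2) (Fin 2) ℂ}
    (h : Equivalent M.transpose N) : Equivalent M N.transpose := by
  obtain ⟨P, Q, hP, hQ, rfl⟩ := h
  refine ⟨Q.transpose, P.transpose, by rwa [Matrix.det_transpose], by rwa [Matrix.det_transpose], ?_⟩
  rw [Matrix.transpose_mul, Matrix.transpose_mul, Matrix.transpose_transpose, Matrix.transpose_map,
    Matrix.transpose_map, Matrix.mul_assoc]

/-- rigidity of `M` and its conjugate -/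
theorem conj_rigid {M : Matrix (Fin 2) (Fin 2) ℂ} (hM : Ctr logA M) {α β γ δ : ℂ}
    (hα : IsAlgebraic ℚ α) (hβ : IsAlgebraic ℚ β) (hγ : IsAlgebraic ℚ γ) (hδ : IsAlgebraic ℚ δ)
    (hne : ¬ (α = 0 ∧ β = 0 ∧ γ = 0 ∧ δ = 0))
    (h : α + β * colSlope M + γ * conj (colSlope M) + δ * colSlope M * conj (colSlope M) = 0) :
    (∃ A B : Matrix (Fin 2) (Fin 2) ℚ, A.det ≠ 0 ∧ B.det ≠ 0 ∧
      M.map cj = toK ℂ A * M * toK ℂ B) ∧
    ∃ κ : ℂ, κ ≠ 0 ∧ IsRat (κ * α) ∧ IsRat (κ * β) ∧ IsRat (κ * γ) ∧ IsRat (κ * δ) := by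
  refine rigid sys_complex hM (ctr_map hM) (mem_Cs_complex.mpr hα) (mem_Cs_complex.mpr hβ)
    (mem_Cs_complex.mpr hγ) (mem_Cs_complex.mpr hδ) hne ?_
  rw [Matrix.map_apply, Matrix.map_apply, ← map_div₀]
  exact h

/-- rigidity of `M` and its conjugate transpose -/
theorem herm_rigid {M : Matrix (Fin 2) (Fin 2) ℂ} (hM : Ctr logA M) {α β γ δ : ℂ}
    (hα : IsAlgebraic ℚ α) (hβ : IsAlgebraic ℚ β) (hγ : IsAlgebraic ℚ γ) (hδ : IsAlgebraic ℚ δ)
    (hne : ¬ (α = 0 ∧ β = 0 ∧ γ = 0 ∧ δ = 0))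
    (h : α + β * colSlope M + γ * conj (rowSlope M) + δ * colSlope M * conj (rowSlope M) = 0) :
    (∃ A B : Matrix (Fin 2) (Fin 2) ℚ, A.det ≠ 0 ∧ B.det ≠ 0 ∧
      (M.map cj).transpose = toK ℂ A * M * toK ℂ B) ∧
    ∃ κ : ℂ, κ ≠ 0 ∧ IsRat (κ * α) ∧ IsRat (κ * β) ∧ IsRat (κ * γ) ∧ IsRat (κ * δ) := by
  refine rigid sys_complex hM (ctr_map hM).transpose (mem_Cs_complex.mpr hα)
    (mem_Cs_complex.mpr hβ) (mem_Cs_complex.mpr hγ) (mem_Cs_complex.mpr hδ) hne ?_
  rw [Matrix.transpose_apply, Matrix.transpose_apply, Matrix.map_apply, Matrix.map_apply,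
    ← map_div₀]
  exact h

theorem circle_case (M : Matrix (Fin 2) (Fin 2) ℂ) (hM : IsCounterexample M)
    (h : AlgRelated (colSlope M) (conj (colSlope M)) ∨
      AlgRelated (rowSlope M) (conj (rowSlope M))) :
    (RatRelated (colSlope M) (conj (colSlope M)) ∧
      RatRelated (rowSlope M) (conj (rowSlope M))) ∧
    ∃ N : Matrix (Fin 2) (Fin 2) ℂ, Equivalent M N ∧
      ((∀ i j, (N i j).im = 0 ∨ (N i j).re = 0) ∨
        ∃ D : ℚ, 0 < D ∧ N 1 1 = conj (N 0 0) ∧ N 0 1 = D * conj (N 1 0)) := by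
  have hc := ctr_of hM
  rcases h with ⟨α, β, γ, δ, hα, hβ, hγ, hδ, hne, h0⟩ | ⟨α, β, γ, δ, hα, hβ, hγ, hδ, hne, h0⟩
  · obtain ⟨⟨A, B, hA, hB, hAB⟩, -⟩ := conj_rigid hc hα hβ hγ hδ hne h0
    exact ⟨slopes hc hA hB hAB, nform hc hAB⟩
  · obtain ⟨⟨A, B, hA, hB, hAB⟩, -⟩ := conj_rigid hc.transpose hα hβ hγ hδ hne h0
    obtain ⟨h1, h2⟩ := slopes hc.transpose hA hB hAB
    obtain ⟨N, hN, hN'⟩ := nform hc.transpose hAB
    refine ⟨⟨h2, h1⟩, N.transpose, equivalent_transpose hN, ?_⟩
    rcases hN' with h3 | ⟨D, hD, h4, h5⟩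
    · exact Or.inl fun i j => h3 j i
    · refine Or.inr ⟨D⁻¹, inv_pos.mpr hD, h4, ?_⟩
      rw [Matrix.transpose_apply, Matrix.transpose_apply, h5]
      have hD' : (D : ℂ) ≠ 0 := by exact_mod_cast hD.ne'
      rw [map_mul, Complex.conj_conj, map_ratCast]
      push_cast
      field_simp

theorem herm_case (M : Matrix (Fin 2) (Fin 2) ℂ) (hM : IsCounterexample M)
    (h : AlgRelated (colSlope M) (conj (rowSlope M))) :
    RatRelated (colSlope M) (conj (rowSlope M)) ∧
    ∃ N : Matrix (Fin 2) (Fin 2) ℂ, Equivalent M N ∧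
      (N.conjTranspose = N ∨ N.conjTranspose = -N) := by
  have hc := ctr_of hM
  obtain ⟨α, β, γ, δ, hα, hβ, hγ, hδ, hne, h0⟩ := h
  obtain ⟨⟨A, B, hA, hB, hAB⟩, κ, hκ, ⟨p, hp⟩, ⟨q, hq⟩, ⟨r, hr⟩, u, hu⟩ :=
    herm_rigid hc hα hβ hγ hδ hne h0
  constructor
  · refine ⟨p, q, r, u, ?_, ?_⟩
    · rintro ⟨h1, h2, h3, h4⟩
      apply hne
      rw [h1, Rat.cast_zero] at hp
      rw [h2, Rat.cast_zero] at hq
      rw [h3, Rat.cast_zero] at hr
      rw [h4, Rat.cast_zero] at hu
      exact ⟨(mul_eq_zero.mp hp.symm).resolve_left hκ, (mul_eq_zero.mp hq.symm).resolve_left hκ,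
        (mul_eq_zero.mp hr.symm).resolve_left hκ, (mul_eq_zero.mp hu.symm).resolve_left hκ⟩
    · rw [hp, hq, hr, hu]
      linear_combination κ * h0
  · refine ⟨toK ℂ A * M, ⟨A, 1, hA, by simp, ?_⟩, ?_⟩
    · have h1 : (1 : Matrix (Fin 2) (Fin 2) ℚ).map (fun q => (q : ℂ)) = 1 := toK_one
      rw [h1, Matrix.mul_one]
      rfl
    · exact herm_form sys_complex hc cj cj_cj A B hA hAB

/-- the matrix of a counterexample to the four exponentials conjecture -/
theorem cex_of {x y : Fin 2 → ℂ} (hx : LinearIndependent ℚ x) (hy : LinearIndependent ℚ y)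
    (h : ∀ i j, IsAlgebraic ℚ (Complex.exp (x i * y j))) :
    IsCounterexample (Matrix.of fun i j => y i * x j) ∧
      colSlope (Matrix.of fun i j => y i * x j) = x 1 / x 0 ∧
      rowSlope (Matrix.of fun i j => y i * x j) = y 1 / y 0 := by
  have hx0 := hx.ne_zero 0
  have hy0 := hy.ne_zero 0
  refine ⟨⟨fun i j => ?_, ?_, ?_⟩, ?_, ?_⟩
  · rw [Matrix.of_apply, mul_comm]
    exact h j i
  · rw [Matrix.det_fin_two]
    simp only [Matrix.of_apply]
    ring
  · intro w v hw hv h0
    have h1 : ∑ i, ∑ j, (w i : ℂ) * (Matrix.of fun i j => y i * x j) i j * v j =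
        (∑ i, (w i : ℂ) * y i) * ∑ j, (v j : ℂ) * x j := by
      simp only [Fin.sum_univ_two, Matrix.of_apply]
      ring
    rw [h1] at h0
    rcases mul_eq_zero.mp h0 with h2 | h2
    · have h3 := Fintype.linearIndependent_iff.mp hy w (by
        rw [← h2]
        exact Finset.sum_congr rfl fun i _ => by rw [Rat.smul_def])
      exact hw (funext h3)
    · have h3 := Fintype.linearIndependent_iff.mp hx v (by
        rw [← h2]
        exact Finset.sum_congr rfl fun i _ => by rw [Rat.smul_def])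
      exact hv (funext h3)
  · simp only [colSlope, Matrix.of_apply]
    rw [mul_div_mul_left _ _ hy0]
  · simp only [rowSlope, Matrix.of_apply]
    rw [mul_div_mul_right _ _ hx0]

theorem four_case (x y : Fin 2 → ℂ) (hx : LinearIndependent ℚ x) (hy : LinearIndependent ℚ y)
    (h : (AlgRelated (x 1 / x 0) (conj (x 1 / x 0)) ∧
        ¬ (RatRelated (x 1 / x 0) (conj (x 1 / x 0)) ∧
          RatRelated (y 1 / y 0) (conj (y 1 / y 0)))) ∨
      (AlgRelated (x 1 / x 0) (conj (y 1 / y 0)) ∧ ¬ RatRelated (x 1 / x 0) (conj (y 1 / y 0)))) :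
    ∃ i j, Transcendental ℚ (Complex.exp (x i * y j)) := by
  by_contra hcon
  have hall : ∀ i j, IsAlgebraic ℚ (Complex.exp (x i * y j)) := by
    intro i j
    by_contra h1
    exact hcon ⟨i, j, h1⟩
  obtain ⟨hM, h1, h2⟩ := cex_of hx hy hall
  rcases h with ⟨h3, h4⟩ | ⟨h3, h4⟩
  · rw [← h1, ← h2] at h4
    rw [← h1] at h3
    exact h4 (circle_case _ hM (Or.inl h3)).1
  · rw [← h1, ← h2] at h3 h4
    exact h4 (herm_case _ hM h3).1

theorem line_case (a τ : ℝ) (ha : IsAlgebraic ℚ a) (hirr : Irrational a) (y : Fin 2 → ℂ)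
    (hy : LinearIndependent ℚ y) : ∃ j, Transcendental ℚ (Complex.exp (y j)) ∨
      Transcendental ℚ (Complex.exp ((a + τ * Complex.I) * y j)) := by
  by_contra hcon
  push Not at hcon
  have hx : LinearIndependent ℚ ![(1 : ℂ), a + τ * Complex.I] := by
    rw [LinearIndependent.pair_iff]
    intro p q hpq
    rw [Rat.smul_def, Rat.smul_def] at hpq
    have h1 := congrArg Complex.re hpq
    simp at h1
    have hq : q = 0 := by
      by_contra hq
      apply hirr
      refine ⟨-p / q, ?_⟩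
      have hq' : (q : ℝ) ≠ 0 := by exact_mod_cast hq
      push_cast
      rw [div_eq_iff hq']
      linear_combination -h1
    refine ⟨?_, hq⟩
    rw [hq] at h1
    simpa using h1
  obtain ⟨hM, h1, h2⟩ := cex_of hx hy (fun i j => by
    have h3 := hcon j
    simp only [Transcendental, not_not] at h3
    fin_cases i
    · simpa using h3.1
    · simpa using h3.2)
  have hslope : colSlope (Matrix.of fun i j => y i * (![(1 : ℂ), a + τ * Complex.I] : Fin 2 → ℂ) j) =
      a + τ * Complex.I := by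
    rw [h1]
    simp
  obtain ⟨-, κ, hκ, ⟨p, hp⟩, ⟨q, hq⟩, -, -⟩ := conj_rigid (ctr_of hM)
    (α := -(2 * (a : ℂ))) (β := 1) (γ := 1) (δ := 0) (by
      have h3 : IsAlgebraic ℚ (a : ℂ) := ha.algebraMap
      exact ((isAlgebraic_algebraMap (R := ℚ) (A := ℂ) 2).mul h3).neg) isAlgebraic_one
      isAlgebraic_one isAlgebraic_zero (fun h => one_ne_zero h.2.1) (by
      rw [hslope]
      simp only [map_add, map_mul, Complex.conj_ofReal, Complex.conj_I]
      ring)
  rw [mul_one] at hq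
  have hq0 : q ≠ 0 := by
    rintro rfl
    rw [Rat.cast_zero] at hq
    exact hκ hq.symm
  apply hirr
  refine ⟨-p / (2 * q), ?_⟩
  have h4 : (p : ℂ) = q * -(2 * (a : ℂ)) := by rw [hq, hp]
  have h5 : (p : ℝ) = q * -(2 * a) := by exact_mod_cast h4
  have hq' : (q : ℝ) ≠ 0 := by exact_mod_cast hq0
  push_cast
  rw [div_eq_iff (mul_ne_zero two_ne_zero hq'), h5]
  ring

theorem beta_case (β t y : ℂ) (hβ : IsAlgebraic ℚ β) (hβq : ∀ q : ℚ, β ≠ q)
    (ht : ∀ q : ℚ, t ≠ q) (hy : y ≠ 0) :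
    Transcendental ℚ (Complex.exp y) ∨ Transcendental ℚ (Complex.exp (t * y)) ∨
      Transcendental ℚ (Complex.exp (β * conj t * y)) ∨
      Transcendental ℚ (Complex.exp (β * (‖t‖ ^ 2 : ℝ) * y)) := by
  by_contra hcon
  push Not at hcon
  obtain ⟨h1, h2, h3, h4⟩ := hcon
  simp only [Transcendental, not_not] at h1 h2 h3 h4
  have hβ0 : β ≠ 0 := by
    intro h0
    exact hβq 0 (by rw [h0, Rat.cast_zero])
  have htalg : ¬ IsAlgebraic ℚ t := by
    intro htA
    have h5 := sys_complex.baker 2 ![y, t * y] (fun i => by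
      fin_cases i
      · exact h1
      · exact h2) (by
      rw [LinearIndependent.pair_iff]
      intro p q hpq
      rw [Rat.smul_def, Rat.smul_def] at hpq
      have h6 : ((p : ℂ) + q * t) * y = 0 := by linear_combination hpq
      have h7 := (mul_eq_zero.mp h6).resolve_right hy
      have hq : q = 0 := by
        by_contra hq
        have hq' : (q : ℂ) ≠ 0 := by exact_mod_cast hq
        apply ht (-p / q)
        push_cast
        rw [eq_div_iff hq']
        linear_combination h7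
      refine ⟨?_, hq⟩
      rw [hq, Rat.cast_zero, zero_mul, add_zero] at h7
      exact_mod_cast h7) ![t, -1] (fun i => by
      fin_cases i
      · exact mem_Cs_complex.mpr htA
      · exact mem_Cs_complex.mpr isAlgebraic_one.neg) (by
      rw [Fin.sum_univ_two]
      simp only [Matrix.cons_val_zero, Matrix.cons_val_one]
      ring) 1
    simp only [Matrix.cons_val_one, Matrix.cons_val_zero] at h5
    exact (neg_ne_zero.mpr one_ne_zero) h5
  have hx : LinearIndependent ℚ ![(1 : ℂ), t] := by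
    rw [LinearIndependent.pair_iff]
    intro p q hpq
    rw [Rat.smul_def, Rat.smul_def, mul_one] at hpq
    have hq : q = 0 := by
      by_contra hq
      have hq' : (q : ℂ) ≠ 0 := by exact_mod_cast hq
      apply ht (-p / q)
      push_cast
      rw [eq_div_iff hq']
      linear_combination hpq
    refine ⟨?_, hq⟩
    rw [hq, Rat.cast_zero, zero_mul, add_zero] at hpq
    exact_mod_cast hpq
  have hyi : LinearIndependent ℚ ![y, β * conj t * y] := by
    rw [LinearIndependent.pair_iff]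
    intro p q hpq
    rw [Rat.smul_def, Rat.smul_def] at hpq
    have h6 : ((p : ℂ) + q * (β * conj t)) * y = 0 := by linear_combination hpq
    have h7 := (mul_eq_zero.mp h6).resolve_right hy
    have hq : q = 0 := by
      by_contra hq
      have hq' : (q : ℂ) ≠ 0 := by exact_mod_cast hq
      apply htalg
      have h8 : conj t = -p / (q * β) := by
        rw [eq_div_iff (mul_ne_zero hq' hβ0)]
        linear_combination h7
      have h9 : IsAlgebraic ℚ (conj t) := by
        rw [h8, div_eq_mul_inv]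
        exact ((isAlgebraic_algebraMap (R := ℚ) (A := ℂ) p).neg).mul
          (((isAlgebraic_algebraMap (R := ℚ) (A := ℂ) q).mul hβ).inv)
      have h10 := isAlgebraic_cj h9
      rwa [cj_apply, Complex.conj_conj] at h10
    refine ⟨?_, hq⟩
    rw [hq, Rat.cast_zero, zero_mul, add_zero] at h7
    exact_mod_cast h7
  obtain ⟨hM, h5, h6⟩ := cex_of hx hyi (fun i j => by
    fin_cases i <;> fin_cases j
    · simpa using h1
    · simpa using h3
    · simpa using h2
    · have h7 : t * (β * conj t * y) = β * (‖t‖ ^ 2 : ℝ) * y := by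
        rw [← Complex.normSq_eq_norm_sq, ← Complex.mul_conj]
        ring
      show IsAlgebraic ℚ (Complex.exp (t * (β * conj t * y)))
      rw [h7]
      exact h4)
  have hcol : colSlope (Matrix.of fun i j => (![y, β * conj t * y] : Fin 2 → ℂ) i *
      (![(1 : ℂ), t] : Fin 2 → ℂ) j) = t := by
    rw [h5]
    simp
  have hrow : rowSlope (Matrix.of fun i j => (![y, β * conj t * y] : Fin 2 → ℂ) i *
      (![(1 : ℂ), t] : Fin 2 → ℂ) j) = β * conj t := by
    rw [h6]
    simp only [Matrix.cons_val_zero, Matrix.cons_val_one]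
    rw [mul_div_cancel_right₀ _ hy]
  obtain ⟨-, κ, hκ, -, ⟨p, hp⟩, ⟨q, hq⟩, -⟩ := herm_rigid (ctr_of hM)
    (α := 0) (β := conj β) (γ := -1) (δ := 0) isAlgebraic_zero (isAlgebraic_cj hβ)
      isAlgebraic_one.neg isAlgebraic_zero (fun h => (neg_ne_zero.mpr one_ne_zero) h.2.2.1) (by
      rw [hcol, hrow]
      simp only [map_mul, Complex.conj_conj]
      ring)
  have hq0 : q ≠ 0 := by
    rintro rfl
    rw [Rat.cast_zero] at hq
    exact hκ (by linear_combination -hq.symm)
  have h7 : conj β = ((-p / q : ℚ) : ℂ) := by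
    have hq' : (q : ℂ) ≠ 0 := by exact_mod_cast hq0
    push_cast
    rw [eq_div_iff hq', hq, hp]
    ring
  apply hβq (-p / q)
  have h8 := congrArg conj h7
  rw [Complex.conj_conj, map_ratCast] at h8
  exact h8

/-- **Main result.** -/
theorem result :
    (∀ M : Matrix (Fin 2) (Fin 2) ℂ, IsCounterexample M →
      (AlgRelated (colSlope M) (conj (colSlope M)) ∨
        AlgRelated (rowSlope M) (conj (rowSlope M))) →
      (RatRelated (colSlope M) (conj (colSlope M)) ∧
        RatRelated (rowSlope M) (conj (rowSlope M))) ∧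
      ∃ N : Matrix (Fin 2) (Fin 2) ℂ, Equivalent M N ∧
        ((∀ i j, (N i j).im = 0 ∨ (N i j).re = 0) ∨
          ∃ D : ℚ, 0 < D ∧ N 1 1 = conj (N 0 0) ∧ N 0 1 = D * conj (N 1 0))) ∧
    (∀ M : Matrix (Fin 2) (Fin 2) ℂ, IsCounterexample M →
      AlgRelated (colSlope M) (conj (rowSlope M)) →
      RatRelated (colSlope M) (conj (rowSlope M)) ∧
      ∃ N : Matrix (Fin 2) (Fin 2) ℂ, Equivalent M N ∧
        (N.conjTranspose = N ∨ N.conjTranspose = -N)) ∧
    (∀ x y : Fin 2 → ℂ, LinearIndependent ℚ x → LinearIndependent ℚ y →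
      (AlgRelated (x 1 / x 0) (conj (x 1 / x 0)) ∧
          ¬ (RatRelated (x 1 / x 0) (conj (x 1 / x 0)) ∧
            RatRelated (y 1 / y 0) (conj (y 1 / y 0)))) ∨
        (AlgRelated (x 1 / x 0) (conj (y 1 / y 0)) ∧
          ¬ RatRelated (x 1 / x 0) (conj (y 1 / y 0))) →
      ∃ i j, Transcendental ℚ (Complex.exp (x i * y j))) ∧
    (∀ a τ : ℝ, IsAlgebraic ℚ a → Irrational a → ∀ y : Fin 2 → ℂ, LinearIndependent ℚ y →
      ∃ j, Transcendental ℚ (Complex.exp (y j)) ∨
        Transcendental ℚ (Complex.exp ((a + τ * Complex.I) * y j))) ∧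
    ∀ β t y : ℂ, IsAlgebraic ℚ β → (∀ q : ℚ, β ≠ q) → (∀ q : ℚ, t ≠ q) → y ≠ 0 →
      Transcendental ℚ (Complex.exp y) ∨ Transcendental ℚ (Complex.exp (t * y)) ∨
        Transcendental ℚ (Complex.exp (β * conj t * y)) ∨
        Transcendental ℚ (Complex.exp (β * (‖t‖ ^ 2 : ℝ) * y)) :=
  ⟨circle_case, herm_case, four_case, line_case, beta_case⟩

end Pool.Agent.Results.MP_1f047c_nt.ComplexConjugation
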