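import Pool.Agent.U449.BV.VU
import Pool.Agent.Results.MP_1f047c_nt.TuplesPowerSaving

/-!
# Singular matrices of logarithms: tuples near the values of polynomials on arbitrary sets

Let `θ_1, …, θ_r` be different algebraic numbers, and let `d`, `m`, `k ≥ 1` be given. There is `c > 0` with the following property. Let
`0 ≤ κ`, `k - c + k κ < δ ≤ k`, let `p` be a large prime, `f(x, y)` ANY polynomial of bounded degree over the field of `p ^ k` elements
with a monomial which contains both variables (for example `f = x y`), let `A`, `B` be ARBITRARY subsets of this field with at least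
`p ^ δ` elements, and `g`, `h` ARBITRARY functions. For ALL number fields `K` of degree at most `d` and all vector spaces `V` over `K`
of dimension at most `m` for which Q1 holds (every singular matrix with entries in `V` satisfies the conclusion of Q1, with vectors over
`K`), for all the pairs `(a, b)` in `A × B`, apart from a proportion of at most `p ^ (-ρ)`, and for ALL tuples `n` of integers `≥ 2` at a
distance of at most `p ^ κ` from the least residues of the `k` coordinates of `f(a, b) + g(a) + h(b)`, Q1 holds for the space
generated by `V` and the logarithms of the `n_i + θ_j`, with arbitrary choices of the logarithms, and they are linearly independent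
modulo `V`.
More generally, this holds for the values `F(a, b)` of all vector functions of two variables with few coincidences
(`RareV`), on arbitrary finite sets.

Since the sets and the functions `g` and `h` are arbitrary, the vectors have no arithmetic structure, and a vector may be
taken by very many pairs. So the number of the exceptions (starting library) does not give the result directly. Proof: the
inequality of Cauchy and Schwarz; for most pairs `a, a'` the difference `F(a, b) - F(a', b)` is small for few `b`
(`Pool.Agent.U449.BV`).
-/

set_option autoImplicit false

namespace Pool.Agent.Results.MP_1f047c_nt.MixedPolynomials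

open Module
open Pool.Agent.U449.BV (RareV OnProductsU on_products_saving coordinates)
open Pool.Agent.Results.MP_1f047c_nt.TuplesPowerSaving (Q1Holds Extends Exceptional)

/-- A number field `K` of degree at most `d` in `ℂ`, and a space `V` of numbers over `K` of dimension at most `m`, for which Q1 holds
over `K` (this is automatic for the dimension one). -/
structure Data (d m : ℕ) where
  /-- the field -/
  K : IntermediateField ℚ ℂ
  /-- it is a number field -/
  finiteDimensional : FiniteDimensional ℚ K
  /-- its degree is at most `d` -/
  degree_le : finrank ℚ K ≤ d
  /-- the space -/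
  V : Submodule K ℂ
  /-- it has finite dimension -/
  finite : Module.Finite K V
  /-- its dimension is at most `m` -/
  dim_le : finrank K V ≤ m
  /-- Q1 holds for this space -/
  holds : finrank K V ≤ 1 ∨ Q1Holds V

/-- For ALL tuples `n` of integers `≥ 2` with `|n_i - x_i| ≤ W` for all `i` and all choices `l` of the logarithms of the numbers
`n_i + θ_j`: they are linearly independent over `K` modulo `V`, and Q1 holds for the space generated by `V` and them. -/
def Near {d m k r : ℕ} (θ : Fin r → ℂ) (D : Data d m) (W : ℝ) (x : Fin k → ℝ) : Prop :=
  ∀ n : Fin k → ℕ, (∀ i, 2 ≤ n i) → (∀ i, |(n i : ℝ) - x i| ≤ W) → ∀ l : Fin k × Fin r → ℂ,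
    (∀ p, Complex.exp (l p) = n p.1 + θ p.2) → Extends D.V l

/-- **Theorem.** For different algebraic numbers `θ_j` and all `k ≥ 1`, `d`, `m` there is `c > 0` such that for all `κ ≥ 0` the property `Near` holds,
uniformly in the number fields of degree at most `d` and the spaces of dimension at most `m` for which Q1 holds, for almost all values of
vector functions of two variables with few coincidences, on arbitrary finite sets of at least `X ^ δ` elements,
`k - c + k κ < δ ≤ k` (`OnProductsU`).
The tuples of the least residues modulo `p` of the coordinates (with respect to a basis over the field of `p` elements) of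
`f(a, b) + g(a) + h(b)` in a field of `p ^ k` elements are such a function, with `X = p`, for all polynomials `f` over this
field with a monomial which contains both variables, arbitrary functions `g` and `h`, and arbitrary finite subsets. -/
theorem result :
    (∀ (r : ℕ) (θ : Fin r → ℂ), (∀ j, IsAlgebraic ℚ (θ j)) → Function.Injective θ → ∀ k d m : ℕ, 1 ≤ k →
      ∃ c : ℝ, 0 < c ∧ ∀ κ : ℝ, 0 ≤ κ →
        OnProductsU k ((k : ℝ) - c + k * κ) κ (fun D : Data d m => Near θ D)) ∧
    ∀ (p : ℕ) [Fact p.Prime] (k : ℕ) (K : Type) [Field K] [Algebra (ZMod p) K] (e : Module.Basis (Fin k) (ZMod p) K)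
      (d : ℕ) (f : MvPolynomial (Fin 2) K), f.totalDegree ≤ d → (∃ m ∈ f.support, m 0 ≠ 0 ∧ m 1 ≠ 0) →
      ∀ (g h : K → K) (A B : Finset K),
        RareV d A B (fun a b i => (((e.repr (MvPolynomial.eval ![a, b] f + g a + h b) i).val : ℕ) : ℝ)) := by
  classical
  refine ⟨fun r θ hθ hinj k d m hk => ?_, coordinates⟩
  obtain ⟨c, hc, C, h⟩ := TuplesPowerSaving.result θ hθ hinj k d m
  have hk1 : (0 : ℝ) < k := by exact_mod_cast hk
  refine ⟨min c k, lt_min hc hk1, fun κ hκ => ?_⟩
  refine (on_products_saving (k := k) 2 (Ω := Data d m)
    (fun D => {n : Fin k → ℕ | ∃ l : Fin k × Fin r → ℂ, (∀ p, Complex.exp (l p) = n p.1 + θ p.2) ∧ ¬ Extends D.V l})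
    (c := c) (C := C) hκ (fun D X hX => ?_)).mono id (fun D W x _ h' n hn hw l hl => ?_)
  · have h1 := (h D.K D.finiteDimensional D.degree_le D.V D.finite D.dim_le D.holds X hX).2
    refine le_trans (le_of_eq ?_) h1
    congr 2
  · by_contra hcon
    exact h' n hn hw ⟨l, hl, hcon⟩

end Pool.Agent.Results.MP_1f047c_nt.MixedPolynomials
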