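import Pool.Agent.U405.RS.G5
import Pool.Agent.Results.MP_1f047c_nt.TuplesPowerSaving

/-!
# Singular matrices of logarithms of values of multiplicative functions in thin sets

Let `F_1, …, F_k` be positive multiplicative functions of at most polynomial growth which for each `a ≥ 1` are injective at the
powers `p ^ a` of the large primes and at most `M p ^ a` there; for example Euler's function or the sum of the divisors. Let `θ_1, …, θ_r` be different algebraic numbers, and let `V` be a `K`-space of complex numbers for which Q1 holds over the number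
field `K` (for instance `V = 0` or `dim V = 1`), of dimension at most `m`, `[K : ℚ] ≤ d`. For almost all `k`-tuples `n` in
products of thin sets Q1 holds over `K` for the space `V + K l`, where the `l` are any logarithms of the `k r` numbers
`F_i (n_i) + θ_j`, and the `l` are `K`-linearly independent modulo `V`. For example: for almost all pairs `(p, q)` of primes
the singular matrices with entries which are rational combinations of `log φ(p + 1)` and `log σ(q - 1)` satisfy the
conclusion of the question.

The starting theorem `MultiplicativeValues` of this problem treats the average over all tuples `m ∈ [1, N]^k`. Here each `m_i` runs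
over a thin set: the shifted primes `p + a_i`, `p ≤ x`, for an arbitrary integer `a_i`, or an interval `(u, u + h]` with
`x^τ ≤ h ≤ x`, where `u ≤ x` and `1 - c / k < τ ≤ 1`; both kinds can be mixed. The tuples of values `(F_1(m_1), …, F_k(m_k))` are taken with large and
uneven multiplicities, so that the size of the exceptional set says nothing about them.

Proof. Own tool `Pool.Agent.U405.RS`. A thin set `S` has at most `B g^ω(n) |S| / n` multiples of `n` for every `n ≤ x^δ` (for the
shifted primes by the Brun-Titchmarsh inequality of the library). Write `m_i = n_i w_i` with `n_i` composed of the primes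
`≤ z = x^(1 / J)`, `J` a small multiple of `log log x`. By Rankin's method one has `n_i ≤ x^η` for most `m_i` in `S_i`; and `w_i` has at
most `J` prime factors and exponents `≤ J`, so that it is determined by `F_i(w_i)` up to `x^o(1)` possibilities. A slab of the
exceptional set is then covered by the fibres over one coordinate, and the saving `X^c` of the exceptional set is larger than the loss
`x^(k (1 - τ))` from the short intervals. The bound for the exceptional tuples of integers is the starting theorem `TuplesPowerSaving`.
-/

set_option autoImplicit false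

namespace Pool.Agent.Results.MP_1f047c_nt.ThinTuples

open Module
open Pool.Agent.U405.RS
open Pool.Agent.Results.MP_1f047c_nt.TuplesPowerSaving (Q1Holds Extends Exceptional)

/-- **Logarithms of values of multiplicative functions in thin sets.** Let `θ_j` be different algebraic numbers, `k ≥ 1`, `d`,
`m` natural numbers. There is `c > 0` such that for all `F_1, …, F_k` in the class `PM`, all `U` and, uniformly, all number fields
`K` of degree at most `d` and all `K`-spaces `V` of complex numbers of dimension at most `m` for which Q1 holds over `K` (or of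
dimension at most `1`), in the sense of `ThinAll c F U`
(with a saving of `(log x)^U`, uniformly in the parameter, for almost all `m` in all products `S_1 × ⋯ × S_k` of sets of shifted
primes `p + a_i`, `p ≤ x`, and intervals `(u, u + h]`, `u ≤ x`, `x^τ ≤ h ≤ x`, whenever `0 < τ ≤ 1`, `k τ > k - c`)
all `F_i (n_i)` are at least `2`, and for ALL choices `l` of the logarithms of the numbers `F_i (n_i) + θ_j` the `l` are
`K`-linearly independent modulo `V` and Q1 holds over `K` for `V + K l`. Euler's function, the sum of the divisors and the
identity are in the class. -/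
theorem result :
    (∀ {r : ℕ} (θ : Fin r → ℂ), (∀ j, IsAlgebraic ℚ (θ j)) → Function.Injective θ → ∀ k : ℕ, 1 ≤ k →
      ∀ d m : ℕ, ∃ c : ℝ, 0 < c ∧ ∀ F : Fin k → ℕ → ℕ, (∀ i, PM (F i)) → ∀ U : ℕ,
      ThinAll c F U (fun (v : Σ K : IntermediateField ℚ ℂ, Submodule K ℂ) (n : Fin k → ℕ) =>
        (FiniteDimensional ℚ v.1 ∧ finrank ℚ v.1 ≤ d ∧ Module.Finite v.1 v.2 ∧ finrank v.1 v.2 ≤ m ∧
          (finrank v.1 v.2 ≤ 1 ∨ Q1Holds v.2)) →
        (∀ i, 2 ≤ n i) ∧ ∀ l : Fin k × Fin r → ℂ, (∀ p, Complex.exp (l p) = n p.1 + θ p.2) → Extends v.2 l)) ∧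
    (PM Nat.totient ∧ PM (fun m => ∑ d ∈ m.divisors, d) ∧ PM (fun m => m)) := by
  refine ⟨fun {r} θ hθ hinj k hk d m => ?_, examplesT⟩
  obtain ⟨c, hc, C, h⟩ := Pool.Agent.Results.MP_1f047c_nt.TuplesPowerSaving.result θ hθ hinj k d m
  refine ⟨c, hc, fun F hF U => thinAll_if hk hF hc C
    (fun v : Σ K : IntermediateField ℚ ℂ, Submodule K ℂ =>
      FiniteDimensional ℚ v.1 ∧ finrank ℚ v.1 ≤ d ∧ Module.Finite v.1 v.2 ∧ finrank v.1 v.2 ≤ m ∧
          (finrank v.1 v.2 ≤ 1 ∨ Q1Holds v.2))
    (fun (v : Σ K : IntermediateField ℚ ℂ, Submodule K ℂ) (n : Fin k → ℕ) =>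
      ∀ l : Fin k × Fin r → ℂ, (∀ p, Complex.exp (l p) = n p.1 + θ p.2) → Extends v.2 l) (fun v hv X hX => ?_) U⟩
  obtain ⟨K, V⟩ := v
  obtain ⟨hK, hKd, hV, hVm, hV0⟩ := hv
  dsimp only at hK hKd hV hVm hV0 ⊢
  refine le_trans (le_of_eq ?_) (h K hK hKd V hV hVm hV0 X hX).2
  congr 2
  ext n
  simp only [Set.mem_ofPred_eq]
  have e : (∀ l : Fin k × Fin r → ℂ, (∀ p, Complex.exp (l p) = (n p.1 : ℂ) + θ p.2) → Extends V l) ↔
      ¬ ∃ l : Fin k × Fin r → ℂ, (∀ p, Complex.exp (l p) = (n p.1 : ℂ) + θ p.2) ∧ ¬ Extends V l := by
    push Not
    rfl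
  rw [e, not_not]
  first
    | exact Iff.rfl
    | simp only [Exceptional, Set.mem_ofPred_eq]
    | simp only [Exceptional, Set.mem_setOf_eq]

end Pool.Agent.Results.MP_1f047c_nt.ThinTuples
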